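import Pool.Agent.ASO.StmtsL

/-!
# LQS, LQU: sums of the coefficients; the square root of a scalar (squad ASO, block L)
-/

set_option autoImplicit false

open scoped BigOperators

noncomputable section

namespace Pool.Agent.PP.SO.H91

theorem two_ne {ℓ : ℕ} [Fact ℓ.Prime] (h : ℓ ≠ 2) : (2 : ZMod ℓ) ≠ 0 := by
  intro h2
  have h3 : ((2 : ℕ) : ZMod ℓ) = 0 := by exact_mod_cast h2
  rw [ZMod.natCast_eq_zero_iff] at h3
  have h4 := (Nat.prime_dvd_prime_iff_eq Fact.out Nat.prime_two).mp h3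
  exact h h4

section

variable {ℓ : ℕ} [Fact ℓ.Prime] {V : Type} [AddCommGroup V] [Module (ZMod ℓ) V]

theorem one_ne (h : Module.finrank (ZMod ℓ) V = 2) : (1 : Module.End (ZMod ℓ) V) ≠ 0 := by
  have : Nontrivial V := by
    refine Module.nontrivial_of_finrank_pos (R := ZMod ℓ) ?_
    rw [h]; norm_num
  exact one_ne_zero

/-- `1` and an operator which is not scalar are linearly independent -/
theorem indep (h : Module.finrank (ZMod ℓ) V = 2) {u : Module.End (ZMod ℓ) V}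
    (hu : ∀ x : ZMod ℓ, u ≠ x • 1) {x y : ZMod ℓ}
    (hxy : x • (1 : Module.End (ZMod ℓ) V) + y • u = 0) : x = 0 ∧ y = 0 := by
  have hy : y = 0 := by
    by_contra hy
    apply hu (-(y⁻¹ * x))
    have h1 : y • u = -(x • (1 : Module.End (ZMod ℓ) V)) := by
      rw [eq_neg_iff_add_eq_zero, add_comm]; exact hxy
    calc u = y⁻¹ • (y • u) := by rw [smul_smul, inv_mul_cancel₀ hy, one_smul]
      _ = -(y⁻¹ * x) • 1 := by rw [h1, smul_neg, smul_smul, neg_smul]
  refine ⟨?_, hy⟩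
  rw [hy, zero_smul, add_zero] at hxy
  rcases smul_eq_zero.mp hxy with h1 | h1
  · exact h1
  · exact absurd h1 (one_ne h)

theorem indep2 (h : Module.finrank (ZMod ℓ) V = 2) {u : Module.End (ZMod ℓ) V}
    (hu : ∀ x : ZMod ℓ, u ≠ x • 1) {x y x' y' : ZMod ℓ}
    (hxy : x • (1 : Module.End (ZMod ℓ) V) + y • u = x' • 1 + y' • u) : x = x' ∧ y = y' := by
  have h1 : (x - x') • (1 : Module.End (ZMod ℓ) V) + (y - y') • u = 0 := by
    rw [sub_smul, sub_smul]
    calc x • (1 : Module.End (ZMod ℓ) V) - x' • 1 + (y • u - y' • u) =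
        (x • (1 : Module.End (ZMod ℓ) V) + y • u) - (x' • 1 + y' • u) := by abel
      _ = 0 := by rw [hxy, sub_self]
  obtain ⟨h2, h3⟩ := indep h hu h1
  exact ⟨sub_eq_zero.mp h2, sub_eq_zero.mp h3⟩

theorem prod_form {u : Module.End (ZMod ℓ) V} {D : ZMod ℓ} (hu : u * u = D • 1)
    (a b a' b' : ZMod ℓ) :
    (a • (1 : Module.End (ZMod ℓ) V) + b • u) * (a' • 1 + b' • u) =
      (a * a' + b * b' * D) • 1 + (a * b' + b * a') • u := by
  rw [add_mul, mul_add, mul_add, smul_mul_smul_comm, smul_mul_smul_comm, smul_mul_smul_comm,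
    smul_mul_smul_comm, hu, mul_one, one_mul, mul_one]
  module

end

theorem lqs : LQsStmt := by
  intro ℓ _ V Γ _ _ _ _ _ ρ hℓ hfr u D a b e₀ hD huu hu hρ hb
  have h2 : (2 : ZMod ℓ) ≠ 0 := two_ne hℓ
  have hinv : ∀ e, ρ e * ρ e⁻¹ = 1 := fun e => by rw [← map_mul, mul_inv_cancel, map_one]
  have hinv' : ∀ e, ρ e⁻¹ * ρ e = 1 := fun e => by rw [← map_mul, inv_mul_cancel, map_one]
  have hq : ∀ e, a e ^ 2 - b e ^ 2 * D ≠ 0 := by
    intro e h0
    have h1 : ρ e * (a e • 1 + (-b e) • u) = 0 := by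
      rw [hρ e, prod_form huu]
      have h3 : a e * a e + b e * -b e * D = 0 := by
        rw [← h0]; ring
      have h4 : a e * -b e + b e * a e = 0 := by ring
      rw [h3, h4, zero_smul, zero_smul, add_zero]
    have h3 : a e • (1 : Module.End (ZMod ℓ) V) + (-b e) • u = 0 := by
      calc a e • (1 : Module.End (ZMod ℓ) V) + (-b e) • u =
          (ρ e⁻¹ * ρ e) * (a e • 1 + (-b e) • u) := by rw [hinv', one_mul]
        _ = 0 := by rw [mul_assoc, h1, mul_zero]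
    obtain ⟨h4, h5⟩ := indep hfr hu h3
    have h6 : ρ e = 0 := by
      rw [hρ e, h4, neg_eq_zero.mp h5, zero_smul, zero_smul, add_zero]
    have h7 := hinv e
    rw [h6, zero_mul] at h7
    exact one_ne hfr h7.symm
  have hρi : ∀ e, ρ e⁻¹ = (a e / (a e ^ 2 - b e ^ 2 * D)) • 1 -
      (b e / (a e ^ 2 - b e ^ 2 * D)) • u := by
    intro e
    have hqe := hq e
    have h1 : ρ e * ((a e / (a e ^ 2 - b e ^ 2 * D)) • 1 +
        (-(b e / (a e ^ 2 - b e ^ 2 * D))) • u) = 1 := by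
      conv_lhs => rw [hρ e]
      rw [prod_form huu]
      have h3 : a e * (a e / (a e ^ 2 - b e ^ 2 * D)) +
          b e * -(b e / (a e ^ 2 - b e ^ 2 * D)) * D = 1 := by
        field_simp
        ring
      have h4 : a e * -(b e / (a e ^ 2 - b e ^ 2 * D)) +
          b e * (a e / (a e ^ 2 - b e ^ 2 * D)) = 0 := by
        ring
      rw [h3, h4, zero_smul, add_zero, one_smul]
    calc ρ e⁻¹ = ρ e⁻¹ * (ρ e * ((a e / (a e ^ 2 - b e ^ 2 * D)) • 1 +
          (-(b e / (a e ^ 2 - b e ^ 2 * D))) • u)) := by rw [h1, mul_one]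
      _ = (a e / (a e ^ 2 - b e ^ 2 * D)) • 1 + (-(b e / (a e ^ 2 - b e ^ 2 * D))) • u := by
          rw [← mul_assoc, hinv', one_mul]
      _ = _ := by module
  have hab : ∀ e e', a (e * e') = a e * a e' + b e * b e' * D ∧
      b (e * e') = a e * b e' + b e * a e' := by
    intro e e'
    refine indep2 hfr hu ?_
    rw [← hρ, map_mul, hρ e, hρ e', prod_form huu]
  -- the sums
  obtain ⟨q, hqd⟩ : ∃ q : Γ → ZMod ℓ, ∀ e, q e = a e ^ 2 - b e ^ 2 * D := ⟨_, fun _ => rfl⟩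
  have hq' : ∀ e, q e ≠ 0 := fun e => by rw [hqd]; exact hq e
  have hqm : ∀ e e', q (e * e') = q e * q e' := by
    intro e e'
    rw [hqd, hqd, hqd, (hab e e').1, (hab e e').2]
    ring
  obtain ⟨x, hx⟩ : ∃ x : Γ → ZMod ℓ, ∀ e, x e = (a e ^ 2 + b e ^ 2 * D) / q e :=
    ⟨_, fun _ => rfl⟩
  obtain ⟨y, hy⟩ : ∃ y : Γ → ZMod ℓ, ∀ e, y e = 2 * a e * b e / q e := ⟨_, fun _ => rfl⟩
  have hxm : ∀ e, x (e * e₀) = x e * x e₀ + D * y e * y e₀ := by
    intro e
    have := hq' e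
    have := hq' e₀
    rw [hx, hx, hx, hy, hy, hqm, (hab e e₀).1, (hab e e₀).2]
    field_simp
    ring
  have hym : ∀ e, y (e * e₀) = x e * y e₀ + y e * x e₀ := by
    intro e
    have := hq' e
    have := hq' e₀
    rw [hy, hx, hx, hy, hy, hqm, (hab e e₀).1, (hab e e₀).2]
    field_simp
    ring
  obtain ⟨X, hX⟩ : ∃ X : ZMod ℓ, X = ∑ e, x e := ⟨_, rfl⟩
  obtain ⟨Y, hY⟩ : ∃ Y : ZMod ℓ, Y = ∑ e, y e := ⟨_, rfl⟩
  have hX1 : X = X * x e₀ + D * Y * y e₀ := by
    calc X = ∑ e, x (e * e₀) := by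
          rw [hX]; exact (Equiv.sum_comp (Equiv.mulRight e₀) x).symm
      _ = ∑ e, (x e * x e₀ + D * y e * y e₀) := Finset.sum_congr rfl fun e _ => hxm e
      _ = X * x e₀ + D * Y * y e₀ := by
          rw [Finset.sum_add_distrib, ← Finset.sum_mul, ← Finset.sum_mul, ← Finset.mul_sum, ← hX,
            ← hY]
  have hY1 : Y = X * y e₀ + Y * x e₀ := by
    calc Y = ∑ e, y (e * e₀) := by
          rw [hY]; exact (Equiv.sum_comp (Equiv.mulRight e₀) y).symm
      _ = ∑ e, (x e * y e₀ + y e * x e₀) := Finset.sum_congr rfl fun e _ => hym e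
      _ = X * y e₀ + Y * x e₀ := by
          rw [Finset.sum_add_distrib, ← Finset.sum_mul, ← Finset.sum_mul, ← hX, ← hY]
  have hn : x e₀ ^ 2 - D * y e₀ ^ 2 = 1 := by
    have h1 := hq' e₀
    have h3 : q e₀ ^ 2 ≠ 0 := pow_ne_zero 2 h1
    have h4 : (a e₀ ^ 2 + b e₀ ^ 2 * D) ^ 2 - D * (2 * a e₀ * b e₀) ^ 2 = q e₀ ^ 2 := by
      rw [hqd]; ring
    rw [hx, hy, div_pow, div_pow, mul_div_assoc', div_sub_div_same, h4, div_self h3]
  have hx0 : 1 - x e₀ ≠ 0 := by
    have h1 := hq' e₀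
    have h3 : (1 - x e₀) * q e₀ = -(2 * D) := by
      rw [hx, sub_mul, div_mul_cancel₀ _ h1, hqd, hb]
      ring
    intro h4
    rw [h4, zero_mul] at h3
    exact mul_ne_zero h2 hD (neg_eq_zero.mp h3.symm)
  have hX0 : X = 0 := by
    have h1 : 2 * (1 - x e₀) * X = 0 := by
      have h3 : (1 - x e₀) * X = D * Y * y e₀ := by linear_combination hX1
      have h4 : (1 - x e₀) * Y = X * y e₀ := by linear_combination hY1
      have h5 : (1 - x e₀) * ((1 - x e₀) * X) = D * y e₀ ^ 2 * X := by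
        rw [h3]
        linear_combination D * y e₀ * h4
      linear_combination h5 - X * hn
    rcases mul_eq_zero.mp h1 with h3 | h3
    · exact absurd h3 (mul_ne_zero h2 hx0)
    · exact h3
  have hY0 : Y = 0 := by
    have h1 : (1 - x e₀) * Y = 0 := by
      rw [hX0, zero_mul, zero_add] at hY1
      linear_combination hY1
    rcases mul_eq_zero.mp h1 with h3 | h3
    · exact absurd h3 hx0
    · exact h3
  -- conclusion
  have hs1 : ∑ e, a e ^ 2 / q e + D * ∑ e, b e ^ 2 / q e = 0 := by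
    rw [← hX0, hX, Finset.mul_sum, ← Finset.sum_add_distrib]
    refine Finset.sum_congr rfl fun e _ => ?_
    rw [hx]
    ring
  have hs2 : ∑ e, a e ^ 2 / q e - D * ∑ e, b e ^ 2 / q e = Fintype.card Γ := by
    rw [Finset.mul_sum, ← Finset.sum_sub_distrib]
    have h1 : ∀ e ∈ (Finset.univ : Finset Γ), a e ^ 2 / q e - D * (b e ^ 2 / q e) = 1 := by
      intro e _
      have h3 : a e ^ 2 / q e - D * (b e ^ 2 / q e) = (a e ^ 2 - b e ^ 2 * D) / q e := by ring
      rw [h3, ← hqd, div_self (hq' e)]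
    rw [Finset.sum_congr rfl h1]
    simp
  have hs3 : 2 * ∑ e, a e * b e / q e = 0 := by
    rw [← hY0, hY, Finset.mul_sum]
    refine Finset.sum_congr rfl fun e _ => ?_
    rw [hy]
    ring
  refine ⟨hq, hρi, ?_, ?_, ?_⟩
  · simp only [← hqd]
    linear_combination hs1 + hs2
  · simp only [← hqd]
    linear_combination hs1 - hs2
  · simp only [← hqd]
    rcases mul_eq_zero.mp hs3 with h3 | h3
    · exact absurd h3 h2
    · exact h3

theorem lqu (hLcm : LCmStmt) : LQuStmt := by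
  intro ℓ _ V Γ _ _ _ _ _ ρ hℓ hfr hcard e₀ θ hg hθ hcom
  have h2 : (2 : ZMod ℓ) ≠ 0 := two_ne hℓ
  obtain ⟨g, hgd⟩ : ∃ g : Module.End (ZMod ℓ) V, g = ρ e₀ := ⟨_, rfl⟩
  rw [← hgd] at hg
  obtain ⟨-, hco, t, m, htm⟩ := hLcm ℓ V hfr g hg
  obtain ⟨s, hs⟩ : ∃ s : ZMod ℓ, s = t / 2 := ⟨_, rfl⟩
  have hts : t = 2 * s := by rw [hs]; field_simp
  obtain ⟨u, hu⟩ : ∃ u : Module.End (ZMod ℓ) V, u = g - s • 1 := ⟨_, rfl⟩
  have hgu : g = s • 1 + (1 : ZMod ℓ) • u := by rw [hu, one_smul]; abel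
  obtain ⟨D, hDd⟩ : ∃ D : ZMod ℓ, D = s ^ 2 - m := ⟨_, rfl⟩
  have huu : u * u = D • 1 := by
    rw [hu, sub_mul, mul_sub, mul_sub, smul_mul_smul_comm, htm, mul_smul_comm, smul_mul_assoc,
      mul_one, one_mul, mul_one, hts, hDd]
    module
  have hus : ∀ x : ZMod ℓ, u ≠ x • 1 := by
    intro x hx
    apply hg (s + x)
    rw [hgu, hx, one_smul, add_smul]
  have hgi : g * ρ e₀⁻¹ = 1 := by rw [hgd, ← map_mul, mul_inv_cancel, map_one]
  have hD : D ≠ 0 := by
    intro hD0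
    rw [hD0, zero_smul] at huu
    have hpow : ∀ k : ℕ, g ^ (k + 1) = s ^ (k + 1) • 1 + (((k + 1 : ℕ) : ZMod ℓ) * s ^ k) • u := by
      intro k
      induction k with
      | zero =>
        rw [zero_add, pow_one, pow_one, pow_zero, Nat.cast_one, mul_one]
        exact hgu
      | succ k ih =>
        rw [pow_succ, ih]
        conv_lhs => rw [hgu]
        rw [prod_form (D := 0) (by rw [huu, zero_smul])]
        push_cast
        have h3 : s ^ (k + 1) * s + ((k : ZMod ℓ) + 1) * s ^ k * 1 * 0 = s ^ (k + 1 + 1) := by ring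
        have h4 : s ^ (k + 1) * 1 + ((k : ZMod ℓ) + 1) * s ^ k * s =
            ((k : ZMod ℓ) + 1 + 1) * s ^ (k + 1) := by ring
        rw [h3, h4]
    have hn1 : g ^ Fintype.card Γ = 1 := by
      rw [hgd, ← map_pow, pow_card_eq_one, map_one]
    obtain ⟨n, hn⟩ : ∃ n : ℕ, Fintype.card Γ = n + 1 :=
      ⟨Fintype.card Γ - 1, (Nat.succ_pred_eq_of_pos Fintype.card_pos).symm⟩
    rw [hn, hpow n] at hn1
    rw [hn] at hcard
    have h3 : s ^ (n + 1) • (1 : Module.End (ZMod ℓ) V) + (((n + 1 : ℕ) : ZMod ℓ) * s ^ n) • u =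
        (1 : ZMod ℓ) • 1 + (0 : ZMod ℓ) • u := by
      rw [hn1, one_smul, zero_smul, add_zero]
    obtain ⟨h4, h5⟩ := indep2 hfr hus h3
    rcases mul_eq_zero.mp h5 with h6 | h6
    · exact hcard h6
    · have h7 : s ^ (n + 1) = 0 := by rw [pow_succ, h6, zero_mul]
      rw [h7] at h4
      exact zero_ne_one h4
  have hex : ∀ e, ∃ a b : ZMod ℓ, ρ e = a • 1 + b • u := by
    intro e
    obtain ⟨a, b, hab⟩ := hco θ (ρ e) hθ (by rw [hgd]; exact hcom e₀) (hcom e)
    refine ⟨a + b * s, b, ?_⟩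
    rw [hab, hgu]
    module
  choose a b hab using hex
  refine ⟨u, D, a, b, hD, huu, hus, hab, ?_⟩
  have h3 : a e₀ • (1 : Module.End (ZMod ℓ) V) + b e₀ • u = s • 1 + (1 : ZMod ℓ) • u := by
    rw [← hab, ← hgd]
    exact hgu
  exact (indep2 hfr hus h3).2

end Pool.Agent.PP.SO.H91
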